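import Pool.Agent.Q158.CliqueGraph

/-!
# A finite ordered set with the fixed point property and non-collapsing iterated clique graphs
-/

set_option autoImplicit false

namespace Pool.Agent.Results.MP_c7efa6_co.NotCollapsing

open Q158.CliqueGraph

/-- There is a finite nonempty ordered set with the fixed point property such that all iterated
clique graphs of its comparability graph have at least two vertices. -/
theorem result : ∃ (P : Type) (_ : PartialOrder P) (_ : Fintype P) (_ : Nonempty P),
    (∀ f : P →o P, ∃ x, f x = x) ∧
    ∀ n : ℕ, Nontrivial (iterClique (comparabilityGraph P) n).1 :=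
  ⟨Q158.RP2.P, inferInstance, inferInstance, inferInstance, Q158.RP2.fpp,
    fun n => nontrivial_of_hasH1 (iter_aux _ hasH1_P n).2⟩

end Pool.Agent.Results.MP_c7efa6_co.NotCollapsing
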